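import Pool.Agent.H698.HF.Core

set_option autoImplicit false

/-! # Random access machines that compute with unknown inputs (helper660) -/

open scoped Classical

namespace Pool.Agent.H660.UR

open Pool.Agent.H698.HF
open Flat (unknown known)

/-- What is written into a cell: an order-preserving function of the contents of two cells, or the
translation of one bit of the input. -/
inductive Src (E A W : Type) : Type
  | gate (φ : Flat W → Flat W → Flat W)
      (mono : ∀ x x' y y', x ≤ x' → y ≤ y' → φ x y ≤ φ x' y') (a b : A) : Src E A W
  | input (e : E) (i : Option Bool → Flat W) (mono : ∀ b, i none ≤ i (some b)) : Src E A W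

/-- A random access machine with the words `W`, the addresses `A` and the states `Q`, for inputs with
the bits `E`. Each cell contains a word or is unknown; at the beginning all cells contain words. In
the state `q` the machine needs the word `w` in the cell `need q`. Then it writes `src q w` into the
cell `cell q w` and goes to the state `next q w`; the cells and the bit of the input which are used,
and the operation, may depend on the word `w` in an arbitrary way (indirect addressing, jumps). It
says yes when it comes to a state in `yes`. -/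
structure Machine (E A W Q : Type) where
  /-- the first state -/
  start : Q
  /-- the contents of the memory at the beginning -/
  init : A → W
  /-- the cell whose contents must be known -/
  need : Q → A
  /-- the cell which is changed -/
  cell : Q → W → A
  /-- what is written -/
  src : Q → W → Src E A W
  /-- the next state -/
  next : Q → W → Q
  /-- the states in which the answer is yes -/
  yes : Set Q

variable {E A W Q : Type}

/-- what is written, if `P` is known about the input and `M` are the contents of the memory -/
def Src.val (P : Know E) (M : A → Flat W) : Src E A W → Flat W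
  | .gate φ _ a b => φ (M a) (M b)
  | .input e i _ => i (P e)

/-- one step; the machine stops for ever if the contents of the cell `need q` is unknown -/
noncomputable def Machine.step (R : Machine E A W Q) (P : Know E) (c : Q × (A → Flat W)) :
    Option (Q × (A → Flat W)) :=
  match c.2 (R.need c.1) with
  | .unknown => none
  | .known w => some (R.next c.1 w,
      Function.update c.2 (R.cell c.1 w) ((R.src c.1 w).val P c.2))

/-- the configuration after `t` steps, if the machine has not stopped -/
noncomputable def Machine.run (R : Machine E A W Q) (P : Know E) :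
    ℕ → Option (Q × (A → Flat W))
  | 0 => some (R.start, fun a => known (R.init a))
  | t + 1 => (R.run P t).bind (R.step P)

/-- the machine says yes within `T` steps if `P` is known about the input -/
def Machine.SaysYes (R : Machine E A W Q) (P : Know E) (T : ℕ) : Prop :=
  ∃ t ≤ T, ∃ c, R.run P t = some c ∧ c.1 ∈ R.yes

theorem Src.val_mono (σ : Src E A W) {P P' : Know E} {M M' : A → Flat W} (h : Le P P')
    (hM : ∀ a, M a ≤ M' a) : σ.val P M ≤ σ.val P' M' := by
  cases σ with
  | gate φ hφ a b => exact hφ _ _ _ _ (hM a) (hM b)
  | input e i hi =>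
    show i (P e) ≤ i (P' e)
    rcases h e with h | h
    · rw [h]
      cases hq : P' e with
      | none => exact le_rfl
      | some b => exact hi b
    · rw [h]

theorem known_le {w : W} {x : Flat W} (h : known w ≤ x) : x = known w := by
  rcases h with h | h
  · exact absurd h (by simp)
  · exact h.symm

theorem step_known {R : Machine E A W Q} {P : Know E} {c : Q × (A → Flat W)} {w : W}
    (h : c.2 (R.need c.1) = known w) : R.step P c = some (R.next c.1 w,
      Function.update c.2 (R.cell c.1 w) ((R.src c.1 w).val P c.2)) := by
  unfold Machine.step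
  rw [h]

theorem step_unknown {R : Machine E A W Q} {P : Know E} {c : Q × (A → Flat W)}
    (h : c.2 (R.need c.1) = unknown) : R.step P c = none := by
  unfold Machine.step
  rw [h]

/-- with more knowledge the machine makes the same steps -/
theorem run_mono (R : Machine E A W Q) {P P' : Know E} (h : Le P P') :
    ∀ (t : ℕ) (c : Q × (A → Flat W)), R.run P t = some c →
      ∃ c', R.run P' t = some c' ∧ c'.1 = c.1 ∧ ∀ a, c.2 a ≤ c'.2 a
  | 0, c, hc => by
    have : c = (R.start, fun a => known (R.init a)) := (Option.some.inj hc).symm
    subst this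
    exact ⟨_, rfl, rfl, fun a => le_rfl⟩
  | t + 1, c, hc => by
    obtain ⟨d, hd1, hd2⟩ := Option.bind_eq_some_iff.1 hc
    obtain ⟨d', h1, h2, h3⟩ := run_mono R h t d hd1
    rcases hw : d.2 (R.need d.1) with _ | w
    · rw [step_unknown hw] at hd2
      exact absurd hd2 (by simp)
    · rw [step_known hw] at hd2
      have hw' : d'.2 (R.need d'.1) = known w := by
        rw [h2]
        exact known_le (hw ▸ h3 _)
      refine ⟨(R.next d'.1 w, Function.update d'.2 (R.cell d'.1 w) ((R.src d'.1 w).val P' d'.2)),
        ?_, ?_, ?_⟩
      · show (R.run P' t).bind (R.step P') = _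
        rw [h1]
        exact step_known hw'
      · rw [← Option.some.inj hd2, h2]
      · intro a
        rw [← Option.some.inj hd2]
        show Function.update d.2 (R.cell d.1 w) ((R.src d.1 w).val P d.2) a ≤
          Function.update d'.2 (R.cell d'.1 w) ((R.src d'.1 w).val P' d'.2) a
        rw [h2]
        by_cases ha : a = R.cell d.1 w
        · subst ha
          rw [Function.update_self, Function.update_self]
          exact Src.val_mono _ h h3
        · rw [Function.update_of_ne ha, Function.update_of_ne ha]
          exact h3 a

theorem saysYes_mono (R : Machine E A W Q) {P P' : Know E} (h : Le P P') {T : ℕ}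
    (hy : R.SaysYes P T) : R.SaysYes P' T := by
  obtain ⟨t, ht, c, hc, hq⟩ := hy
  obtain ⟨c', h1, h2, -⟩ := run_mono R h t c hc
  exact ⟨t, ht, c', h1, by rw [h2]; exact hq⟩

/-- the run exists at earlier times -/
theorem run_prefix (R : Machine E A W Q) (P : Know E) {t s : ℕ} (hst : s ≤ t)
    (h : ∃ c, R.run P t = some c) : ∃ c, R.run P s = some c := by
  induction t with
  | zero =>
    have : s = 0 := by omega
    rw [this]; exact h
  | succ t ih =>
    rcases Nat.lt_or_ge s (t + 1) with hs | hs
    · obtain ⟨c, hc⟩ := h
      obtain ⟨d, hd, -⟩ := Option.bind_eq_some_iff.1 hc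
      exact ih (by omega) ⟨d, hd⟩
    · have : s = t + 1 := by omega
      rw [this]; exact h

/-- the function is computed by a gate or constant -/
def Av (l : List (Know E → Flat W)) (F : Know E → Flat W) : Prop :=
  F ∈ l ∨ ∃ w, F = fun _ => w

theorem Av.mono {l l' : List (Know E → Flat W)} (h : ∀ f ∈ l, f ∈ l') {F : Know E → Flat W}
    (hF : Av l F) : Av l' F := hF.imp (h F) id

theorem av_gate {l : List (Know E → Flat W)} (hl : Circ l) {F G : Know E → Flat W} (hF : Av l F)
    (hG : Av l G) {φ : Flat W → Flat W → Flat W}
    (hφ : ∀ x x' y y', x ≤ x' → y ≤ y' → φ x y ≤ φ x' y') :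
    ∃ l', Circ l' ∧ (∀ f ∈ l, f ∈ l') ∧ l'.length ≤ l.length + 1 ∧
      Av l' (fun P => φ (F P) (G P)) := by
  rcases hF with hF | ⟨w, rfl⟩
  · rcases hG with hG | ⟨v, rfl⟩
    · exact ⟨_, Circ.gate hl hφ hF hG, fun f hf => List.mem_cons_of_mem _ hf, by simp,
        Or.inl List.mem_cons_self⟩
    · exact ⟨_, Circ.gate (φ := fun x _ => φ x v) hl
        (fun a a' b b' ha _ => hφ _ _ _ _ ha le_rfl) hF hF,
        fun f hf => List.mem_cons_of_mem _ hf, by simp, Or.inl List.mem_cons_self⟩
  · rcases hG with hG | ⟨v, rfl⟩
    · exact ⟨_, Circ.gate (φ := fun _ y => φ w y) hl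
        (fun a a' b b' _ hb => hφ _ _ _ _ le_rfl hb) hG hG,
        fun f hf => List.mem_cons_of_mem _ hf, by simp, Or.inl List.mem_cons_self⟩
    · exact ⟨l, hl, fun f hf => hf, by omega, Or.inr ⟨φ w v, rfl⟩⟩

/-- both arguments are known -/
noncomputable def both (w0 : W) (x y : Flat W) : Flat W :=
  if x = unknown ∨ y = unknown then unknown else known w0

theorem both_mono (w0 : W) : ∀ x x' y y' : Flat W, x ≤ x' → y ≤ y' →
    both w0 x y ≤ both w0 x' y' := by
  intro x x' y y' hx hy
  unfold both
  by_cases h : x = unknown ∨ y = unknown
  · rw [if_pos h]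
    exact Or.inl rfl
  · rw [if_neg h]
    rw [not_or] at h
    have h1 : x = x' := hx.resolve_left h.1
    have h2 : y = y' := hy.resolve_left h.2
    rw [← h1, ← h2, if_neg (not_or.2 h)]

theorem both_ne (w0 : W) (x y : Flat W) :
    both w0 x y ≠ unknown ↔ x ≠ unknown ∧ y ≠ unknown := by
  unfold both
  split_ifs with h
  · rw [← not_or]
    simp [h]
  · rw [← not_or]
    simp [h]

/-- the bits known to be true, without the knowledge about false bits -/
noncomputable def topK : Know E := truths fun _ => True

theorem sim (R : Machine E A W Q) : ∀ (t : ℕ) (q : Q) (M : A → Flat W),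
    R.run (topK : Know E) t = some (q, M) →
    ∃ (l : List (Know E → Flat W)) (V : A → Know E → Flat W) (F : Know E → Flat W), Circ l ∧
      l.length ≤ 2 * t ∧ (∀ a, Av l (V a)) ∧ Av l F ∧ ∀ P, Le P topK →
        (F P ≠ unknown ↔ ∃ c, R.run P t = some c) ∧
        ∀ c, R.run P t = some c → c.1 = q ∧ ∀ a, c.2 a = V a P
  | 0, q, M, h => by
    have h0 : (R.start, fun a => known (R.init a)) = (q, M) := Option.some.inj h
    refine ⟨[], fun a _ => known (R.init a), fun _ => known (R.init (R.need R.start)), Circ.nil,
      by simp, fun a => Or.inr ⟨_, rfl⟩, Or.inr ⟨_, rfl⟩, fun P _ => ⟨?_, ?_⟩⟩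
    · constructor
      · intro _; exact ⟨_, rfl⟩
      · intro _ h; exact absurd h (by simp)
    · intro c hc
      rw [← Option.some.inj hc]
      exact ⟨(Prod.ext_iff.1 h0).1, fun a => rfl⟩
  | t + 1, q', M', h => by
    obtain ⟨⟨q, M⟩, hd1, hd2⟩ := Option.bind_eq_some_iff.1 h
    obtain ⟨l, V, F, h1, h2, h3, h4, h5⟩ := sim R t q M hd1
    rcases hw : M (R.need q) with _ | w
    · rw [step_unknown hw] at hd2
      exact absurd hd2 (by simp)
    rw [step_known (c := (q, M)) hw] at hd2
    have hq' : R.next q w = q' := (Prod.ext_iff.1 (Option.some.inj hd2)).1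
    -- the new contents of the cell
    obtain ⟨l1, a1, a2, a3, a4⟩ : ∃ l1, Circ l1 ∧ (∀ f ∈ l, f ∈ l1) ∧
        l1.length ≤ l.length + 1 ∧ Av l1 (fun P => (R.src q w).val P fun a => V a P) := by
      rcases R.src q w with ⟨φ, hφ, a, b⟩ | ⟨e, i, hi⟩
      · exact av_gate h1 (h3 a) (h3 b) hφ
      · exact ⟨_, Circ.input e i h1 hi, fun f hf => List.mem_cons_of_mem _ hf, by simp,
          Or.inl List.mem_cons_self⟩
    -- the new flag
    obtain ⟨l2, b1, b2, b3, b4⟩ := av_gate a1 ((h3 (R.need q)).mono a2) (h4.mono a2)
      (both_mono w)
    refine ⟨l2, Function.update V (R.cell q w) (fun P => (R.src q w).val P fun a => V a P),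
      fun P => both w (V (R.need q) P) (F P), b1, by omega, fun a => ?_, b4, fun P hP => ?_⟩
    · by_cases ha : a = R.cell q w
      · subst ha
        rw [Function.update_self]
        exact a4.mono b2
      · rw [Function.update_of_ne ha]
        exact (h3 a).mono fun f hf => b2 f (a2 f hf)
    · obtain ⟨g1, g2⟩ := h5 P hP
      have key : ∀ c, R.run P t = some c → V (R.need q) P ≠ unknown →
          c.2 (R.need c.1) = known w := by
        intro c hc hne
        obtain ⟨e1, e2⟩ := g2 c hc
        obtain ⟨c', k1, k2, k3⟩ := run_mono R hP t c hc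
        rw [hd1] at k1
        have k4 : c' = (q, M) := (Option.some.inj k1).symm
        subst k4
        have k5 : c.2 (R.need q) ≤ M (R.need q) := k3 (R.need q)
        rw [hw] at k5
        rcases k5 with k5 | k5
        · rw [e2] at k5
          exact absurd k5 hne
        · rw [e1]
          exact k5
      refine ⟨?_, fun c' hc' => ?_⟩
      · rw [both_ne]
        constructor
        · rintro ⟨u1, u2⟩
          obtain ⟨c, hc⟩ := g1.1 u2
          refine ⟨(R.next c.1 w, Function.update c.2 (R.cell c.1 w) ((R.src c.1 w).val P c.2)),
            ?_⟩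
          show (R.run P t).bind (R.step P) = _
          rw [hc]
          exact step_known (key c hc u1)
        · rintro ⟨c', hc'⟩
          obtain ⟨c, hc, hs⟩ := Option.bind_eq_some_iff.1 hc'
          refine ⟨fun hu => ?_, g1.2 ⟨c, hc⟩⟩
          obtain ⟨e1, e2⟩ := g2 c hc
          have : c.2 (R.need c.1) = unknown := by rw [e2, e1]; exact hu
          rw [step_unknown this] at hs
          exact absurd hs (by simp)
      · obtain ⟨c, hc, hs⟩ := Option.bind_eq_some_iff.1 hc'
        obtain ⟨e1, e2⟩ := g2 c hc
        have hne : V (R.need q) P ≠ unknown := by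
          intro hu
          have : c.2 (R.need c.1) = unknown := by rw [e2, e1]; exact hu
          rw [step_unknown this] at hs
          exact absurd hs (by simp)
        rw [step_known (key c hc hne)] at hs
        rw [← Option.some.inj hs]
        have e3 : c.2 = fun a => V a P := funext e2
        constructor
        · show R.next c.1 w = q'
          rw [e1, hq']
        · intro a
          show Function.update c.2 (R.cell c.1 w) ((R.src c.1 w).val P c.2) a = _
          rw [e1, e3]
          by_cases ha : a = R.cell q w
          · subst ha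
            rw [Function.update_self, Function.update_self]
          · rw [Function.update_of_ne ha, Function.update_of_ne ha]

/-- forget what is known about false bits -/
def clip (P : Know E) : Know E := fun e => if P e = some true then some true else none

theorem clip_truths (x : E → Prop) : clip (truths x) = truths x := by
  funext e
  unfold clip truths
  by_cases h : x e <;> simp [h]

theorem clip_full (x : E → Prop) : clip (full x) = truths x := by
  funext e
  unfold clip truths full
  by_cases h : x e <;> simp [h]

theorem circ_clip {l : List (Know E → Flat W)} (hl : Circ l) :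
    Circ (l.map fun g P => g (clip P)) := by
  induction hl with
  | nil => exact Circ.nil
  | @input l e i _ hi ih =>
    have h : ∀ b : Bool, i (if (none : Option Bool) = some true then some true else none) ≤
        i (if (some b : Option Bool) = some true then some true else none) := by
      intro b
      cases b
      · simp
      · simpa using hi true
    exact Circ.input e (fun o => i (if o = some true then some true else none)) ih h
  | @const l c _ ih => exact Circ.const c ih
  | @gate l φ f g _ hφ hf hg ih =>
    exact Circ.gate ih hφ (List.mem_map_of_mem (f := fun (g : Know E → Flat W) P => g (clip P)) hf)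
      (List.mem_map_of_mem (f := fun (g : Know E → Flat W) P => g (clip P)) hg)

/-- the machine is simulated by a circuit with at most `2 T + 1` gates -/
theorem exists_circ (R : Machine E A W Q) (T : ℕ) :
    ∃ (l : List (Know E → Flat W)) (out : Know E → Flat W), Circ l ∧ l.length ≤ 2 * T + 1 ∧
      out ∈ l ∧ ∀ x : E → Prop,
        (out (truths x) ∈ {y : Flat W | y ≠ unknown} ↔ R.SaysYes (truths x) T) ∧
        (out (full x) ∈ {y : Flat W | y ≠ unknown} ↔ R.SaysYes (truths x) T) := by
  have htop : ∀ x : E → Prop, Le (truths x) topK := fun x => truths_le_truths fun _ _ => trivial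
  suffices h : ∃ (l : List (Know E → Flat W)) (out : Know E → Flat W), Circ l ∧
      l.length ≤ 2 * T + 1 ∧ out ∈ l ∧ ∀ x : E → Prop,
        (out (truths x) ≠ unknown ↔ R.SaysYes (truths x) T) by
    obtain ⟨l, out, h1, h2, h3, h4⟩ := h
    refine ⟨l.map fun g P => g (clip P), fun P => out (clip P), circ_clip h1, by simpa using h2,
      List.mem_map_of_mem (f := fun (g : Know E → Flat W) P => g (clip P)) h3, fun x => ⟨?_, ?_⟩⟩
    · show out (clip (truths x)) ≠ unknown ↔ _
      rw [clip_truths]
      exact h4 x
    · show out (clip (full x)) ≠ unknown ↔ _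
      rw [clip_full]
      exact h4 x
  by_cases hex : ∃ t, t ≤ T ∧ ∃ c, R.run (topK : Know E) t = some c ∧ c.1 ∈ R.yes
  · obtain ⟨ht, ⟨q, M⟩, hc, hq⟩ := Nat.find_spec hex
    obtain ⟨l, V, F, h1, h2, h3, h4, h5⟩ := sim R _ q M hc
    have h6 : ∀ x : E → Prop, (F (truths x) ≠ unknown ↔ R.SaysYes (truths x) T) := by
      intro x
      obtain ⟨g1, g2⟩ := h5 _ (htop x)
      rw [g1]
      constructor
      · rintro ⟨c, hc'⟩
        exact ⟨_, ht, c, hc', by rw [(g2 c hc').1]; exact hq⟩
      · rintro ⟨t, ht', c, hc', hy⟩
        obtain ⟨c', k1, k2, -⟩ := run_mono R (htop x) t c hc'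
        refine run_prefix R _ ?_ ⟨c, hc'⟩
        exact Nat.find_min' hex ⟨ht', c', k1, by rw [k2]; exact hy⟩
    rcases h4 with h4 | ⟨w, rfl⟩
    · exact ⟨l, F, h1, by omega, h4, h6⟩
    · exact ⟨(fun _ => w) :: l, fun _ => w, Circ.const w h1,
        by simp only [List.length_cons]; omega, List.mem_cons_self, h6⟩
  · refine ⟨[fun _ => unknown], fun _ => unknown, Circ.const _ Circ.nil, by simp, by simp,
      fun x => ⟨fun h => absurd rfl h, fun h => ?_⟩⟩
    obtain ⟨t, ht, c, hc, hy⟩ := h
    obtain ⟨c', k1, k2, -⟩ := run_mono R (htop x) t c hc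
    exact absurd ⟨t, ht, c', k1, by rw [k2]; exact hy⟩ hex

theorem acc_upper : IsUpperSet {y : Flat W | y ≠ unknown} := by
  intro x y hxy hx
  rcases hxy with h | h
  · exact absurd h hx
  · rw [← h]; exact hx

theorem le_filter {Ω : Type} [Fintype Ω] {p : Ω → ℝ} (hp : ∀ ω, 0 ≤ p ω) {A B : Ω → Prop}
    (dA : DecidablePred A) (dB : DecidablePred B) (h : ∀ ω, A ω → B ω) {c : ℝ}
    (hA : c ≤ ∑ ω ∈ @Finset.filter _ A dA Finset.univ, p ω) :
    c ≤ ∑ ω ∈ @Finset.filter _ B dB Finset.univ, p ω := by
  refine hA.trans (Finset.sum_le_sum_of_subset_of_nonneg ?_ fun ω _ _ => hp ω)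
  intro ω hω
  rw [Finset.mem_filter] at hω ⊢
  exact ⟨hω.1, h ω hω.2⟩

end Pool.Agent.H660.UR
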