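import Pool.Agent.H660.UR.Ram
import Pool.Agent.H660.US.Low

set_option autoImplicit false

/-! # 3SUM on random access machines with unknown inputs (helper660) -/

open scoped Classical
open Finset Filter

namespace Pool.Agent.H660.UR

open Pool.Agent.H698.HF Pool.Agent.H660.US
open Flat (unknown known)

/-- The randomised machine `R`, which has the form `R ω` with probability `p ω` and is stopped after
`T ω` steps, solves 3SUM with advantage `δ` for the sets of at most `n` integers from the domain `U`: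
for all these sets `S` it says yes with probability at least `1 / 2 + δ` if `S` has a solution and
the elements of `S` are known (for all other integers it is unknown whether they belong to `S`), and
it does not say yes with probability at least `1 / 2 + δ` if `S` has no solution and everything is
known. -/
def SumM (n : ℕ) (U : Finset ℤ) (δ : ℝ) {A W Q Ω : Type} [Fintype Ω] (p : Ω → ℝ)
    (R : Ω → Machine ℤ A W Q) (T : Ω → ℕ) : Prop :=
  (∀ ω, 0 ≤ p ω) ∧ ∑ ω, p ω = 1 ∧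
  ∀ S : Finset ℤ, S ⊆ U → S.card ≤ n →
    (HasSum S → 1 / 2 + δ ≤
      ∑ ω ∈ univ.filter (fun ω => (R ω).SaysYes (truths (· ∈ S)) (T ω)), p ω) ∧
    (¬ HasSum S → 1 / 2 + δ ≤
      ∑ ω ∈ univ.filter (fun ω => ¬ (R ω).SaysYes (full (· ∈ S)) (T ω)), p ω)

theorem solvesS_of_sumM {n : ℕ} {U : Finset ℤ} {δ : ℝ} {A W Q Ω : Type} [Fintype Ω] {p : Ω → ℝ}
    {R : Ω → Machine ℤ A W Q} {T : Ω → ℕ} (h : SumM n U δ p R T) :
    ∃ l : Ω → List (Know ℤ → Flat W), (∀ ω, Circ (l ω)) ∧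
      (∀ ω, (l ω).length ≤ 2 * T ω + 1) ∧ SolvesS n U δ p l := by
  obtain ⟨hp, hp1, hG⟩ := h
  choose l out h1 h2 h3 h4 using fun ω => exists_circ (R ω) (T ω)
  refine ⟨l, h1, h2, hp, hp1, out, fun _ => {y : Flat W | y ≠ unknown}, h3,
    fun _ => acc_upper, fun S hS hc => ⟨fun hG3 => ?_, fun hG3 => ?_⟩⟩
  · exact le_filter hp _ _ (fun ω hω => (h4 ω _).1.2 hω) ((hG S hS hc).1 hG3)
  · exact le_filter hp _ _ (fun ω hω hc => hω
      (saysYes_mono (R ω) (truths_le_full _) ((h4 ω _).2.1 hc))) ((hG S hS hc).2 hG3)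

theorem lowerR {n : ℕ} {U : Finset ℤ} {β t : ℝ} (hlow : ∀ (D : Type) [PartialOrder D],
      TreeLike D → ∀ (δ : ℝ) (Ω : Type) [Fintype Ω] (p : Ω → ℝ) (l : Ω → List (Know ℤ → D)),
        (∀ ω, Circ (l ω)) → SolvesS n U δ p l →
        (2 * δ - β) * (n : ℝ) ^ t ≤ ∑ ω, p ω * ((l ω).length : ℝ))
    (δ : ℝ) {A W Q Ω : Type} [Fintype Ω] (p : Ω → ℝ)
    (R : Ω → Machine ℤ A W Q) (T : Ω → ℕ) (h : SumM n U δ p R T) :
    (2 * δ - β) * (n : ℝ) ^ t ≤ 2 * ∑ ω, p ω * (T ω : ℝ) + 1 := by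
  obtain ⟨l, h1, h2, h3⟩ := solvesS_of_sumM h
  refine (hlow (Flat W) Flat.treeLike δ Ω p l h1 h3).trans ?_
  calc ∑ ω, p ω * ((l ω).length : ℝ) ≤ ∑ ω, p ω * (2 * (T ω : ℝ) + 1) := by
        refine Finset.sum_le_sum fun ω _ => mul_le_mul_of_nonneg_left ?_ (h.1 ω)
        exact_mod_cast h2 ω
    _ = ∑ ω, (2 * (p ω * (T ω : ℝ)) + p ω) := Finset.sum_congr rfl fun ω _ => by ring
    _ = 2 * ∑ ω, p ω * (T ω : ℝ) + 1 := by
        rw [Finset.sum_add_distrib, ← Finset.mul_sum, h.2.1]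

end Pool.Agent.H660.UR
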