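import Pool.Agent.H660.UR.Ram
import Pool.Agent.H660.UT.Low

set_option autoImplicit false

/-! # Triangle detection on random access machines with unknown inputs (helper660) -/

open scoped Classical
open Finset Filter

namespace Pool.Agent.H660.UR

open Pool.Agent.H698.HF Pool.Agent.H660.UT
open Flat (unknown known)

/-- The randomised machine `R`, which has the form `R ω` with probability `p ω` and is stopped after
`T ω` steps, detects triangles in the graphs with `n` vertices and at most `m` edges with advantage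
`δ`: for every graph `G` with at most `m` edges it says yes with probability at least `1 / 2 + δ` if
`G` has a triangle and the edges of `G` are known (for all other pairs of vertices it is unknown
whether they are edges), and it does not say yes with probability at least `1 / 2 + δ` if `G` has no
triangle and everything is known. -/
def DetectsT {n : ℕ} (m : ℕ) (δ : ℝ) {A W Q Ω : Type} [Fintype Ω] (p : Ω → ℝ)
    (R : Ω → Machine (Sym2 (Fin n)) A W Q) (T : Ω → ℕ) : Prop :=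
  (∀ ω, 0 ≤ p ω) ∧ ∑ ω, p ω = 1 ∧
  ∀ G : SimpleGraph (Fin n), G.edgeSet.ncard ≤ m →
    (¬ G.CliqueFree 3 → 1 / 2 + δ ≤
      ∑ ω ∈ univ.filter (fun ω => (R ω).SaysYes (truths (· ∈ G.edgeSet)) (T ω)), p ω) ∧
    (G.CliqueFree 3 → 1 / 2 + δ ≤
      ∑ ω ∈ univ.filter (fun ω => ¬ (R ω).SaysYes (full (· ∈ G.edgeSet)) (T ω)), p ω)

theorem solvesT_of_detectsT {n m : ℕ} {δ : ℝ} {A W Q Ω : Type} [Fintype Ω] {p : Ω → ℝ}
    {R : Ω → Machine (Sym2 (Fin n)) A W Q} {T : Ω → ℕ} (h : DetectsT m δ p R T) :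
    ∃ l : Ω → List (Know (Sym2 (Fin n)) → Flat W), (∀ ω, Circ (l ω)) ∧
      (∀ ω, (l ω).length ≤ 2 * T ω + 1) ∧ SolvesT m δ p l := by
  obtain ⟨hp, hp1, hG⟩ := h
  choose l out h1 h2 h3 h4 using fun ω => exists_circ (R ω) (T ω)
  refine ⟨l, h1, h2, hp, hp1, out, fun _ => {y : Flat W | y ≠ unknown}, h3,
    fun _ => acc_upper, fun G hGm => ⟨fun hG3 => ?_, fun hG3 => ?_⟩⟩
  · exact le_filter hp _ _ (fun ω hω => (h4 ω _).1.2 hω) ((hG G hGm).1 hG3)
  · exact le_filter hp _ _ (fun ω hω hc => hω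
      (saysYes_mono (R ω) (truths_le_full _) ((h4 ω _).2.1 hc))) ((hG G hGm).2 hG3)

theorem lowerM {m n : ℕ} {β θ : ℝ} (hlow : ∀ (D : Type) [PartialOrder D] (H : ℕ), 1 ≤ H →
      Height D H → ∀ (δ : ℝ) (Ω : Type) [Fintype Ω] (p : Ω → ℝ)
        (l : Ω → List (Know (Sym2 (Fin n)) → D)), (∀ ω, Circ (l ω)) → SolvesT m δ p l →
        (δ - β) * (m : ℝ) ^ θ ≤ 4 * (H : ℝ) ^ 2 * ∑ ω, p ω * ((l ω).length : ℝ))
    (δ : ℝ) {A W Q Ω : Type} [Fintype Ω] (p : Ω → ℝ)
    (R : Ω → Machine (Sym2 (Fin n)) A W Q) (T : Ω → ℕ) (h : DetectsT m δ p R T) :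
    (δ - β) * (m : ℝ) ^ θ ≤ 8 * ∑ ω, p ω * (T ω : ℝ) + 4 := by
  obtain ⟨l, h1, h2, h3⟩ := solvesT_of_detectsT h
  have h4 := hlow (Flat W) 1 le_rfl (height_flat W) δ Ω p l h1 h3
  have h5 : ∑ ω, p ω * ((l ω).length : ℝ) ≤ 2 * ∑ ω, p ω * (T ω : ℝ) + 1 := by
    calc ∑ ω, p ω * ((l ω).length : ℝ) ≤ ∑ ω, p ω * (2 * (T ω : ℝ) + 1) := by
          refine Finset.sum_le_sum fun ω _ => mul_le_mul_of_nonneg_left ?_ (h.1 ω)
          exact_mod_cast h2 ω
      _ = ∑ ω, (2 * (p ω * (T ω : ℝ)) + p ω) := Finset.sum_congr rfl fun ω _ => by ring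
      _ = 2 * ∑ ω, p ω * (T ω : ℝ) + 1 := by
          rw [Finset.sum_add_distrib, ← Finset.mul_sum, h.2.1]
  refine h4.trans ?_
  rw [Nat.cast_one, one_pow, mul_one]
  linarith

end Pool.Agent.H660.UR
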